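import Pool.Agent.Work.MP_0df73a_co.Poly

/-!
Ballot type vectors (contents of the second row of a two-row tableau) and their number.
-/

set_option autoImplicit false

namespace Pool.Agent.Work.MP_0df73a_co

open Finset

theorem dd_at_zero {ι : Type*} (R : Finset ι) (c : ι → ℕ) : dd R c 0 = 1 := by
  classical
  induction R using Finset.induction_on with
  | empty => rw [dd_empty, if_pos rfl]
  | insert r R hr ih =>
    rw [dd_insert R c r hr, Finset.sum_range_succ']
    have : ∀ d ∈ range (c r), (if d + 1 ≤ 0 then dd R c (0 - (d + 1)) else 0) = 0 := by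
      intro d _
      rw [if_neg (by omega)]
    rw [Finset.sum_congr rfl this]
    simpa using ih

theorem dd_at_total {ι : Type*} (R : Finset ι) (c : ι → ℕ) : dd R c (∑ r ∈ R, c r) = 1 := by
  rw [dd_symm R c (∑ r ∈ R, c r) 0 (by omega), dd_at_zero]

/-- The difference of two consecutive slice numbers: the two-row Kostka number. -/
noncomputable def kost (b : ℕ → ℕ) (n q : ℕ) : ℤ :=
  dd (range n) b q - (if 1 ≤ q then dd (range n) b (q - 1) else 0)

theorem kost_succ (b : ℕ → ℕ) (n q : ℕ) :
    kost b (n + 1) q = dd (range n) b q -
      (if b n + 1 ≤ q then dd (range n) b (q - b n - 1) else 0) := by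
  unfold kost
  rw [Finset.range_add_one]
  rcases q with _ | q
  · rw [if_neg (by omega), if_neg (by omega), dd_at_zero, dd_at_zero]
  · rw [if_pos (by omega), Nat.add_sub_cancel, dd_insert_succ (range n) b n (by simp) q]
    congr 1
    by_cases h : b n ≤ q
    · rw [if_pos h, if_pos (by omega)]
      congr 1
      omega
    · rw [if_neg h, if_neg (by omega)]

/-- The polynomial of a dilated slice, with index set an initial segment. -/
theorem exists_slice_poly (n : ℕ) (a : ℕ → ℕ) (k' k : ℕ) (hk : k < ∑ r ∈ range n, a r)
    (h1 : k' ≤ k) (h2 : k' + k ≤ ∑ r ∈ range n, a r) :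
    ∃ P P' : Polynomial ℚ, (∀ N : ℕ, 1 ≤ N → P.eval (N : ℚ) =
      (dd (range n) (fun r => N * a r) (N * k) : ℤ)) ∧
      (∀ N : ℕ, 1 ≤ N → P'.eval (N : ℚ) = (dd (range n) (fun r => N * a r) (N * k') : ℤ)) ∧
      (∀ j, 0 ≤ P.coeff j) ∧ (∀ j, P'.coeff j ≤ P.coeff j) := by
  rcases n with _ | n
  · simp at hk
  · have hs : ∑ r ∈ range (n + 1), a r = ∑ i : Fin (n + 1), a i := Finset.sum_range a
    have hd : ∀ (c : ℕ → ℕ) (s : ℕ), dd (range (n + 1)) c s =
        dd (Finset.univ : Finset (Fin (n + 1))) (fun i => c i) s := by
      intro c s
      unfold dd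
      rw [Finset.prod_range]
    rw [hs] at hk h2
    refine ⟨BP (fun i : Fin (n + 1) => a i) k, BP (fun i : Fin (n + 1) => a i) k', ?_, ?_, ?_, ?_⟩
    · intro N hN
      rw [BP_eval _ N k hN hk, hd]
    · intro N hN
      rw [BP_eval _ N k' hN (by omega), hd]
    · exact BP_coeff_nonneg _ k hk
    · exact BP_coeff_mono _ k' k hk h1 h2

/-- Positivity of the coefficients in the two-row case. -/
theorem exists_kost_poly (n : ℕ) : ∀ (a : ℕ → ℕ) (k : ℕ), 2 * k ≤ ∑ r ∈ range n, a r →
    ∃ P : Polynomial ℚ, (∀ j, 0 ≤ P.coeff j) ∧
      ∀ N : ℕ, 1 ≤ N → P.eval (N : ℚ) = (kost (fun r => N * a r) n (N * k) : ℤ) := by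
  induction n with
  | zero =>
    intro a k hk
    have hk0 : k = 0 := by simpa using hk
    subst hk0
    refine ⟨1, fun j => ?_, fun N _ => ?_⟩
    · rw [Polynomial.coeff_one]
      split_ifs <;> norm_num
    · unfold kost
      rw [mul_zero, dd_at_zero, if_neg (by omega)]
      simp
  | succ n ih =>
    intro a k hk
    rw [Finset.sum_range_succ] at hk
    rcases Nat.lt_or_ge (a n) k with h | h
    · obtain ⟨k', rfl⟩ := Nat.exists_eq_add_of_lt h
      -- k = a n + k' + 1
      obtain ⟨P, P', hP, hP', hpos, hmono⟩ := exists_slice_poly n a (k' + 1) (a n + k' + 1)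
        (by omega) (by omega) (by omega)
      obtain ⟨Q, hQpos, hQ⟩ := ih a (k' + 1) (by omega)
      refine ⟨(P - P') + Q, fun j => ?_, fun N hN => ?_⟩
      · rw [Polynomial.coeff_add, Polynomial.coeff_sub]
        have := hmono j
        have := hQpos j
        linarith
      · rw [Polynomial.eval_add, Polynomial.eval_sub, hP N hN, hP' N hN, hQ N hN, kost_succ]
        have hpos : 1 ≤ N * (k' + 1) := Nat.mul_pos (by omega) (by omega)
        have e1 : N * a n + 1 ≤ N * (a n + k' + 1) := by
          have : N * (a n + k' + 1) = N * a n + N * (k' + 1) := by ring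
          omega
        have e2 : N * (a n + k' + 1) - N * a n - 1 = N * (k' + 1) - 1 := by
          have : N * (a n + k' + 1) = N * a n + N * (k' + 1) := by ring
          omega
        rw [if_pos e1, e2]
        unfold kost
        rw [if_pos hpos]
        push_cast
        ring
    · have hz : ∀ N : ℕ, ¬ (N * a n + 1 ≤ N * k) := by
        intro N
        have := Nat.mul_le_mul_left N h
        omega
      rcases lt_trichotomy k (∑ r ∈ range n, a r) with h3 | h3 | h3
      · obtain ⟨P, P', hP, hP', hpos, hmono⟩ := exists_slice_poly n a 0 k h3 (by omega) (by omega)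
        refine ⟨P, hpos, fun N hN => ?_⟩
        rw [hP N hN, kost_succ, if_neg (hz N), sub_zero]
      · refine ⟨1, fun j => ?_, fun N hN => ?_⟩
        · rw [Polynomial.coeff_one]
          split_ifs <;> norm_num
        · rw [kost_succ, if_neg (hz N), sub_zero, h3, Finset.mul_sum, dd_at_total]
          simp
      · refine ⟨0, fun j => by simp, fun N hN => ?_⟩
        rw [kost_succ, if_neg (hz N), sub_zero, dd_eq_zero]
        · simp
        · rw [← Finset.mul_sum]
          exact (Nat.mul_lt_mul_left (by omega)).mpr h3

/-! ### Ballot vectors -/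

/-- `x` is the content of the second row of a semistandard tableau with content `b` on the letters
`< n` and with second row of length `q`. -/
def Bal (b : ℕ → ℕ) (n q : ℕ) (x : ℕ → ℕ) : Prop :=
  (∀ v, n ≤ v → x v = 0) ∧ (∀ v, v < n → x v ≤ b v) ∧ ∑ v ∈ range n, x v = q ∧
    ∀ v, v < n → (∑ u ∈ range (v + 1), x u) + ∑ u ∈ range v, x u ≤ ∑ u ∈ range v, b u

open Classical in
/-- The finite set of these vectors. -/
noncomputable def BF (b : ℕ → ℕ) : ℕ → ℕ → Finset (ℕ → ℕ)
  | 0, q => if q = 0 then {0} else ∅
  | n + 1, q => (range (b n + 1)).biUnion fun d =>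
      if d ≤ q ∧ q + (q - d) ≤ ∑ u ∈ range n, b u then
        (BF b n (q - d)).image (fun x => Function.update x n d) else ∅

theorem sum_update_lt (x : ℕ → ℕ) (n d v : ℕ) (h : v ≤ n) :
    ∑ u ∈ range v, Function.update x n d u = ∑ u ∈ range v, x u := by
  refine Finset.sum_congr rfl fun u hu => ?_
  rw [Finset.mem_range] at hu
  rw [Function.update_of_ne (by omega)]

open Classical in
theorem mem_BF (b : ℕ → ℕ) (n : ℕ) : ∀ (q : ℕ) (x : ℕ → ℕ), x ∈ BF b n q ↔ Bal b n q x := by
  induction n with
  | zero =>
    intro q x
    unfold BF Bal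
    by_cases hq : q = 0
    · rw [if_pos hq, Finset.mem_singleton]
      constructor
      · rintro rfl
        subst hq
        simp
      · rintro ⟨h1, -⟩
        funext v
        exact h1 v (Nat.zero_le _)
    · rw [if_neg hq]
      constructor
      · intro h
        simp at h
      · rintro ⟨-, -, h3, -⟩
        simp at h3
        omega
  | succ n ih =>
    intro q x
    unfold BF
    rw [Finset.mem_biUnion]
    constructor
    · rintro ⟨d, hd, hx⟩
      rw [Finset.mem_range] at hd
      split_ifs at hx with hc
      · rw [Finset.mem_image] at hx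
        obtain ⟨y, hy, rfl⟩ := hx
        rw [ih] at hy
        obtain ⟨h1, h2, h3, h4⟩ := hy
        refine ⟨?_, ?_, ?_, ?_⟩
        · intro v hv
          rw [Function.update_of_ne (by omega)]
          exact h1 v (by omega)
        · intro v hv
          rcases Nat.lt_or_ge v n with h | h
          · rw [Function.update_of_ne (by omega)]
            exact h2 v h
          · obtain rfl : v = n := by omega
            rw [Function.update_self]
            omega
        · rw [Finset.sum_range_succ, sum_update_lt _ _ _ _ le_rfl, Function.update_self, h3]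
          omega
        · intro v hv
          rcases Nat.lt_or_ge v n with h | h
          · rw [sum_update_lt _ _ _ _ (by omega), sum_update_lt _ _ _ _ (by omega)]
            exact h4 v h
          · obtain rfl : v = n := by omega
            rw [Finset.sum_range_succ, sum_update_lt _ _ _ _ le_rfl, Function.update_self, h3]
            omega
      · simp at hx
    · rintro ⟨h1, h2, h3, h4⟩
      refine ⟨x n, ?_, ?_⟩
      · rw [Finset.mem_range]
        have := h2 n (by omega)
        omega
      · rw [Finset.sum_range_succ] at h3
        have h5 := h4 n (by omega)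
        rw [Finset.sum_range_succ] at h5
        rw [if_pos ⟨by omega, by omega⟩, Finset.mem_image]
        refine ⟨Function.update x n 0, ?_, ?_⟩
        · rw [ih]
          refine ⟨?_, ?_, ?_, ?_⟩
          · intro v hv
            rcases Nat.lt_or_ge n v with h | h
            · rw [Function.update_of_ne (by omega)]
              exact h1 v (by omega)
            · obtain rfl : v = n := by omega
              rw [Function.update_self]
          · intro v hv
            rw [Function.update_of_ne (by omega)]
            exact h2 v (by omega)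
          · rw [sum_update_lt _ _ _ _ le_rfl]
            omega
          · intro v hv
            rw [sum_update_lt _ _ _ _ (by omega), sum_update_lt _ _ _ _ (by omega)]
            exact h4 v (by omega)
        · funext v
          rcases eq_or_ne v n with rfl | h
          · rw [Function.update_self]
          · rw [Function.update_of_ne h, Function.update_of_ne h]

open Classical in
theorem card_BF_succ (b : ℕ → ℕ) (n q : ℕ) :
    (BF b (n + 1) q).card = ∑ d ∈ range (b n + 1),
      if d ≤ q ∧ q + (q - d) ≤ ∑ u ∈ range n, b u then (BF b n (q - d)).card else 0 := by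
  conv_lhs => unfold BF
  rw [Finset.card_biUnion]
  · refine Finset.sum_congr rfl fun d _ => ?_
    split_ifs
    · rw [Finset.card_image_of_injOn]
      intro x hx y hy hxy
      have hx' := (mem_BF b n _ x).mp hx
      have hy' := (mem_BF b n _ y).mp hy
      funext v
      rcases eq_or_ne v n with rfl | h
      · rw [hx'.1 v le_rfl, hy'.1 v le_rfl]
      · have := congrFun hxy v
        simpa [Function.update_of_ne h] using this
    · simp
  · intro d _ e _ hde
    rw [Function.onFun, Finset.disjoint_left]
    intro x hx hy
    apply hde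
    split_ifs at hx with h1
    · split_ifs at hy with h2
      · rw [Finset.mem_image] at hx hy
        obtain ⟨y, -, rfl⟩ := hx
        obtain ⟨z, -, hz⟩ := hy
        have := congrFun hz n
        simpa using this.symm
      · simp at hy
    · simp at hx

/-- Telescoping sum of two-row Kostka numbers. -/
theorem sum_kost (b : ℕ → ℕ) (n l u : ℕ) (h : l ≤ u) :
    ∑ q ∈ Finset.Icc l u, kost b n q =
      dd (range n) b u - (if 1 ≤ l then dd (range n) b (l - 1) else 0) := by
  induction u, h using Nat.le_induction with
  | base =>
    rw [Finset.Icc_self, Finset.sum_singleton]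
    rfl
  | succ u hu ih =>
    rw [Finset.sum_Icc_succ_top (by omega), ih]
    unfold kost
    rw [if_pos (by omega : 1 ≤ u + 1), Nat.add_sub_cancel]
    ring

theorem card_BF (b : ℕ → ℕ) (n : ℕ) : ∀ q : ℕ, 2 * q ≤ ∑ u ∈ range n, b u →
    ((BF b n q).card : ℤ) = kost b n q := by
  induction n with
  | zero =>
    intro q hq
    have hq0 : q = 0 := by simpa using hq
    subst hq0
    unfold BF kost
    rw [if_pos rfl, if_neg (by omega), Finset.range_zero, dd_empty, if_pos rfl]
    simp
  | succ n ih =>
    intro q hq
    rw [Finset.sum_range_succ] at hq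
    rw [card_BF_succ, kost_succ]
    push_cast
    set B := ∑ u ∈ range n, b u with hB
    have e1 : (∑ d ∈ range (b n + 1), if d ≤ q ∧ q + (q - d) ≤ B then ((BF b n (q - d)).card : ℤ) else 0) =
        ∑ d ∈ range (b n + 1) with (d ≤ q ∧ q + (q - d) ≤ B), kost b n (q - d) := by
      rw [Finset.sum_filter]
      refine Finset.sum_congr rfl fun d _ => ?_
      split_ifs with h
      · exact ih _ (by omega)
      · rfl
    rw [e1]
    rcases Nat.lt_or_ge B q with hqB | hqB
    · -- both sides vanish
      have : (range (b n + 1)).filter (fun d => d ≤ q ∧ q + (q - d) ≤ B) = ∅ := by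
        rw [Finset.filter_eq_empty_iff]
        intro d _
        omega
      rw [this, Finset.sum_empty, if_neg (by omega), dd_eq_zero _ _ _ hqB, sub_zero]
    · have e2 : ∑ d ∈ range (b n + 1) with (d ≤ q ∧ q + (q - d) ≤ B), kost b n (q - d) =
          ∑ q' ∈ Finset.Icc (q - b n) (min q (B - q)), kost b n q' := by
        refine Finset.sum_nbij' (fun d => q - d) (fun q' => q - q') ?_ ?_ ?_ ?_ ?_
        · intro d hd
          simp only [Finset.mem_filter, Finset.mem_range, Finset.mem_Icc] at hd ⊢
          omega
        · intro d hd
          simp only [Finset.mem_filter, Finset.mem_range, Finset.mem_Icc] at hd ⊢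
          omega
        · intro d hd
          simp only [Finset.mem_filter, Finset.mem_range] at hd
          omega
        · intro d hd
          simp only [Finset.mem_Icc] at hd
          omega
        · intro d hd
          rfl
      rw [e2, sum_kost b n _ _ (by omega)]
      congr 1
      · rcases le_total q (B - q) with h | h
        · rw [min_eq_left h]
        · rw [min_eq_right h]
          exact dd_symm _ _ _ _ (by omega)
      · by_cases h : b n + 1 ≤ q
        · rw [if_pos h, if_pos (by omega)]
        · rw [if_neg h, if_neg (by omega)]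

end Pool.Agent.Work.MP_0df73a_co
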