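import Mathlib

/-!
Numbers of lattice points in slices of boxes: inclusion-exclusion and unimodality.
-/

set_option autoImplicit false

namespace Pool.Agent.Work.MP_0df73a_co

open Finset

/-- The power series `1 + X + ... + X ^ c`. -/
noncomputable def geo (c : ℕ) : PowerSeries ℤ := ∑ d ∈ range (c + 1), PowerSeries.X ^ d

/-- The number of integer vectors `d` with `0 ≤ d r ≤ c r` for `r ∈ R` and sum `s`. -/
noncomputable def dd {ι : Type*} (R : Finset ι) (c : ι → ℕ) (s : ℕ) : ℤ :=
  PowerSeries.coeff s (∏ r ∈ R, geo (c r))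

theorem geo_mul (c : ℕ) : geo c * (1 - PowerSeries.X) = 1 - PowerSeries.X ^ (c + 1) := by
  have := geom_sum_mul (PowerSeries.X : PowerSeries ℤ) (c + 1)
  unfold geo
  linear_combination -this

theorem prod_geo {ι : Type*} (R : Finset ι) (c : ι → ℕ) :
    ∏ r ∈ R, geo (c r) =
      (∏ r ∈ R, (1 - (PowerSeries.X : PowerSeries ℤ) ^ (c r + 1))) *
        (PowerSeries.invOneSubPow ℤ R.card).val := by
  have h1 : (∏ r ∈ R, geo (c r)) * (1 - PowerSeries.X) ^ R.card =
      ∏ r ∈ R, (1 - (PowerSeries.X : PowerSeries ℤ) ^ (c r + 1)) := by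
    rw [← Finset.prod_const, ← Finset.prod_mul_distrib]
    exact Finset.prod_congr rfl fun r _ => geo_mul (c r)
  rw [← h1, mul_assoc, ← PowerSeries.invOneSubPow_inv_eq_one_sub_pow, Units.inv_val, mul_one]

theorem dd_ie {ι : Type*} (R : Finset ι) (c : ι → ℕ) (s m : ℕ) (hR : R.card = m + 1) :
    dd R c s = ∑ T ∈ R.powerset, (-1 : ℤ) ^ T.card *
      (if (∑ r ∈ T, c r) + T.card ≤ s then
        ((m + (s - ((∑ r ∈ T, c r) + T.card))).choose m : ℤ) else 0) := by
  classical
  have h2 : ∏ r ∈ R, (1 - (PowerSeries.X : PowerSeries ℤ) ^ (c r + 1)) =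
      ∑ T ∈ R.powerset, (-1 : PowerSeries ℤ) ^ T.card * PowerSeries.X ^ ((∑ r ∈ T, c r) + T.card) := by
    have : ∀ r ∈ R, (1 - (PowerSeries.X : PowerSeries ℤ) ^ (c r + 1)) =
        (-(PowerSeries.X : PowerSeries ℤ) ^ (c r + 1)) + 1 := fun r _ => by ring
    rw [Finset.prod_congr rfl this, Finset.prod_add_one]
    refine Finset.sum_congr rfl fun T _ => ?_
    rw [Finset.prod_neg, Finset.prod_pow_eq_pow_sum, Finset.sum_add_distrib]
    simp
  unfold dd
  rw [prod_geo, h2, hR, PowerSeries.invOneSubPow_val_succ_eq_mk_add_choose, Finset.sum_mul, map_sum]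
  refine Finset.sum_congr rfl fun T _ => ?_
  rw [mul_assoc, mul_comm (PowerSeries.X ^ _)]
  have : ((-1 : PowerSeries ℤ) ^ T.card) = PowerSeries.C ((-1 : ℤ) ^ T.card) := by simp
  rw [this, PowerSeries.coeff_C_mul, PowerSeries.coeff_mul_X_pow']
  split_ifs with h
  · rw [PowerSeries.coeff_mk]
  · rfl

theorem dd_empty {ι : Type*} (c : ι → ℕ) (s : ℕ) :
    dd (∅ : Finset ι) c s = if s = 0 then 1 else 0 := by
  unfold dd
  rw [Finset.prod_empty, PowerSeries.coeff_one]

theorem dd_insert {ι : Type*} [DecidableEq ι] (R : Finset ι) (c : ι → ℕ) (r : ι) (hr : r ∉ R) (s : ℕ) :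
    dd (insert r R) c s = ∑ d ∈ range (c r + 1), if d ≤ s then dd R c (s - d) else 0 := by
  unfold dd
  rw [Finset.prod_insert hr, geo, Finset.sum_mul, map_sum]
  refine Finset.sum_congr rfl fun d _ => ?_
  rw [mul_comm, PowerSeries.coeff_mul_X_pow']

theorem dd_nonneg {ι : Type*} (R : Finset ι) (c : ι → ℕ) (s : ℕ) : 0 ≤ dd R c s := by
  classical
  induction R using Finset.induction_on generalizing s with
  | empty => rw [dd_empty]; split_ifs <;> norm_num
  | insert r R hr ih =>
    rw [dd_insert R c r hr]
    refine Finset.sum_nonneg fun d _ => ?_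
    split_ifs
    · exact ih _
    · exact le_rfl

/-- One step difference for an enlarged box. -/
theorem dd_insert_succ {ι : Type*} [DecidableEq ι] (R : Finset ι) (c : ι → ℕ) (r : ι) (hr : r ∉ R)
    (s : ℕ) :
    dd (insert r R) c (s + 1) - dd (insert r R) c s =
      dd R c (s + 1) - (if c r ≤ s then dd R c (s - c r) else 0) := by
  rw [dd_insert R c r hr, dd_insert R c r hr, Finset.sum_range_succ' _ (c r),
    Finset.sum_range_succ _ (c r)]
  have : ∀ d ∈ range (c r), (if d + 1 ≤ s + 1 then dd R c (s + 1 - (d + 1)) else 0) =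
      (if d ≤ s then dd R c (s - d) else 0) := by
    intro d _
    simp only [Nat.add_sub_add_right, add_le_add_iff_right]
  rw [Finset.sum_congr rfl this]
  simp

theorem dd_eq_zero {ι : Type*} (R : Finset ι) (c : ι → ℕ) (s : ℕ) (h : ∑ r ∈ R, c r < s) :
    dd R c s = 0 := by
  classical
  induction R using Finset.induction_on generalizing s with
  | empty =>
    rw [dd_empty, if_neg]
    simp at h
    omega
  | insert r R hr ih =>
    rw [dd_insert R c r hr]
    rw [Finset.sum_insert hr] at h
    refine Finset.sum_eq_zero fun d hd => ?_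
    rw [Finset.mem_range] at hd
    split_ifs
    · exact ih _ (by omega)
    · rfl

theorem dd_symm {ι : Type*} (R : Finset ι) (c : ι → ℕ) (s s' : ℕ) (h : s + s' = ∑ r ∈ R, c r) :
    dd R c s = dd R c s' := by
  classical
  induction R using Finset.induction_on generalizing s s' with
  | empty =>
    simp at h
    rw [h.1, h.2]
  | insert r R hr ih =>
    rw [dd_insert R c r hr, dd_insert R c r hr, ← Finset.sum_range_reflect]
    rw [Finset.sum_insert hr] at h
    refine Finset.sum_congr rfl fun d hd => ?_
    rw [Finset.mem_range] at hd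
    by_cases h1 : c r + 1 - 1 - d ≤ s
    · rw [if_pos h1]
      by_cases h2 : d ≤ s'
      · rw [if_pos h2]
        exact ih _ _ (by omega)
      · rw [if_neg h2]
        exact dd_eq_zero _ _ _ (by omega)
    · rw [if_neg h1]
      by_cases h2 : d ≤ s'
      · rw [if_pos h2, dd_eq_zero _ _ _ (by omega)]
      · rw [if_neg h2]

/-- Unimodality of the numbers of lattice points in the slices of a box. -/
theorem dd_mono {ι : Type*} (R : Finset ι) (c : ι → ℕ) (s' s : ℕ) (h1 : s' ≤ s)
    (h2 : s' + s ≤ ∑ r ∈ R, c r) : dd R c s' ≤ dd R c s := by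
  classical
  induction R using Finset.induction_on generalizing s s' with
  | empty =>
    simp at h2
    rw [h2.1, h2.2]
  | insert r R hr ih =>
    -- one step
    have step : ∀ u : ℕ, 2 * u + 1 ≤ ∑ i ∈ insert r R, c i →
        dd (insert r R) c u ≤ dd (insert r R) c (u + 1) := by
      intro u hu
      rw [Finset.sum_insert hr] at hu
      have e := dd_insert_succ R c r hr u
      by_cases hc : c r ≤ u
      · rw [if_pos hc] at e
        have := ih (u - c r) (u + 1) (by omega) (by omega)
        linarith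
      · rw [if_neg hc] at e
        have := dd_nonneg R c (u + 1)
        linarith
    have chain : ∀ v u : ℕ, u ≤ v → 2 * v ≤ (∑ i ∈ insert r R, c i) + 1 →
        dd (insert r R) c u ≤ dd (insert r R) c v := by
      intro v
      induction v with
      | zero =>
        intro u hu _
        obtain rfl : u = 0 := by omega
        exact le_rfl
      | succ v ihv =>
        intro u hu hv
        rcases Nat.lt_or_ge v u with h | h
        · obtain rfl : u = v + 1 := by omega
          exact le_rfl
        · exact (ihv u h (by omega)).trans (step v (by omega))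
    by_cases hs : 2 * s ≤ (∑ i ∈ insert r R, c i) + 1
    · exact chain s s' h1 hs
    · obtain ⟨w, hw⟩ : ∃ w, s + w = ∑ i ∈ insert r R, c i := ⟨(∑ i ∈ insert r R, c i) - s, by omega⟩
      rw [dd_symm (insert r R) c s w hw]
      exact chain w s' (by omega) (by omega)

end Pool.Agent.Work.MP_0df73a_co
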