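import Pool.Agent.Work.MP_0df73a_co.Box

/-!
The scaled inclusion-exclusion formula and the combinatorial identity behind the positivity of the
coefficients.
-/

set_option autoImplicit false

namespace Pool.Agent.Work.MP_0df73a_co

open Finset

/-- Product form of the binomial coefficients in the scaled inclusion-exclusion formula. -/
theorem dd_scaled {ι : Type*} (R : Finset ι) (c : ι → ℕ) (m N k : ℕ) (hR : R.card = m + 1)
    (hN : 1 ≤ N) (hk : k < ∑ r ∈ R, c r) :
    (m.factorial : ℤ) * dd R (fun r => N * c r) (N * k) =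
      ∑ T ∈ R.powerset with (∑ r ∈ T, c r) ≤ k, (-1 : ℤ) ^ T.card *
        ∏ i ∈ range m, ((N : ℤ) * ((k : ℤ) - ∑ r ∈ T, (c r : ℤ)) - T.card + (i + 1)) := by
  rw [dd_ie R _ _ m hR, Finset.mul_sum, Finset.sum_filter]
  refine Finset.sum_congr rfl fun T hT => ?_
  rw [Finset.mem_powerset] at hT
  have hcard : T.card ≤ m + 1 := hR ▸ Finset.card_le_card hT
  have hsum : ∑ r ∈ T, N * c r = N * ∑ r ∈ T, c r := by rw [Finset.mul_sum]
  rw [hsum]
  by_cases h1 : ∑ r ∈ T, c r ≤ k
  · rw [if_pos h1]
    obtain ⟨u, hu⟩ := Nat.exists_eq_add_of_le h1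
    have hku : (k : ℤ) - ∑ r ∈ T, (c r : ℤ) = u := by
      rw [hu]; push_cast; ring
    rw [hku]
    have hNk : N * k = N * (∑ r ∈ T, c r) + N * u := by rw [hu]; ring
    by_cases h2 : T.card ≤ N * u
    · rw [if_pos (by omega)]
      obtain ⟨v, hv⟩ := Nat.exists_eq_add_of_le h2
      have e1 : N * k - (N * (∑ r ∈ T, c r) + T.card) = v := by omega
      rw [e1, ← mul_assoc, mul_comm ((m.factorial : ℤ)), mul_assoc]
      congr 1
      have e2 : ((m.factorial : ℤ) * ((m + v).choose m : ℤ)) = ((v + 1).ascFactorial m : ℕ) := by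
        rw [Nat.ascFactorial_eq_factorial_mul_choose]
        rw [add_comm m v]
        push_cast
        ring
      rw [e2, Nat.ascFactorial_eq_prod_range]
      push_cast
      refine Finset.prod_congr rfl fun i _ => ?_
      have : (N : ℤ) * u = T.card + v := by exact_mod_cast hv
      rw [this]; ring
    · rw [if_neg (by omega)]
      rw [mul_zero, mul_zero]
      symm
      rw [mul_eq_zero]
      right
      -- find the vanishing factor
      have hlt : T.card - N * u - 1 < m := by
        rcases Nat.lt_or_ge (T.card) (m + 1) with h | h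
        · omega
        · -- T = R
          have hTR : T = R := Finset.eq_of_subset_of_card_le hT (by omega)
          have hu0 : 0 < u ∨ u = 0 := by omega
          rcases hu0 with h0 | h0
          · have : 0 < N * u := Nat.mul_pos (by omega) h0
            omega
          · exfalso
            rw [h0, hTR] at hu
            omega
      refine Finset.prod_eq_zero (i := T.card - N * u - 1) (Finset.mem_range.mpr hlt) ?_
      have h3 : ((T.card - N * u - 1 : ℕ) : ℤ) = (T.card : ℤ) - N * u - 1 := by
        rw [Nat.sub_sub, Nat.cast_sub (by omega)]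
        push_cast
        ring
      rw [h3]; ring
  · rw [if_neg h1, if_neg]
    · simp
    · push Not at h1
      have : N * k < N * (∑ r ∈ T, c r) := (Nat.mul_lt_mul_left (by omega)).mpr h1
      omega

theorem prod_rank {α : Type*} [LinearOrder α] {A : Type*} [CommMonoid A] (h : ℕ → A)
    (S : Finset α) : ∏ i ∈ S, h ((S.filter (· < i)).card) = ∏ r ∈ range S.card, h r := by
  induction S using Finset.induction_on_max with
  | empty => simp
  | insert a S ha ih =>
    have hna : a ∉ S := fun h => lt_irrefl _ (ha a h)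
    rw [Finset.prod_insert hna, Finset.card_insert_of_notMem hna, Finset.prod_range_succ, ← ih,
      mul_comm]
    congr 1
    · refine Finset.prod_congr rfl fun i hi => ?_
      congr 2
      ext j
      simp only [Finset.mem_filter, Finset.mem_insert]
      constructor
      · rintro ⟨rfl | hj, hlt⟩
        · exact absurd (ha i hi) (not_lt.mpr hlt.le)
        · exact ⟨hj, hlt⟩
      · rintro ⟨hj, hlt⟩
        exact ⟨Or.inr hj, hlt⟩
    · congr 2
      ext j
      simp only [Finset.mem_filter, Finset.mem_insert]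
      constructor
      · rintro ⟨rfl | hj, hlt⟩
        · exact absurd hlt (lt_irrefl _)
        · exact hj
      · intro hj
        exact ⟨Or.inr hj, ha j hj⟩

theorem prod_split {A : Type*} [CommRing A] (y : A) (n j : ℕ) (hj : j ≤ n + 1) :
    (∏ r ∈ range j, (y - r)) * ∏ r ∈ range (n + 1 - j), (y + r) =
      y * ∏ i ∈ range n, (y - j + (i + 1)) := by
  rcases j with _ | j
  · simp only [Finset.range_zero, Finset.prod_empty, one_mul, Nat.sub_zero, Nat.cast_zero, sub_zero]
    rw [Finset.prod_range_succ']
    push_cast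
    ring
  · obtain ⟨l, rfl⟩ : ∃ l, n = j + l := ⟨n - j, by omega⟩
    rw [Finset.prod_range_succ', Finset.prod_range_add]
    have e1 : ∏ x ∈ range j, (y - ((j + 1 : ℕ) : A) + ((x : A) + 1)) =
        ∏ k ∈ range j, (y - ((k + 1 : ℕ) : A)) := by
      rw [← Finset.prod_range_reflect]
      refine Finset.prod_congr rfl fun i hi => ?_
      rw [Finset.mem_range] at hi
      have : ((j - 1 - i : ℕ) : A) = (j : A) - 1 - i := by
        rw [Nat.sub_sub, Nat.cast_sub (by omega)]
        push_cast; ring
      rw [this]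
      push_cast
      ring
    have e2 : ∏ x ∈ range l, (y - ((j + 1 : ℕ) : A) + (((j + x : ℕ) : A) + 1)) =
        ∏ r ∈ range (j + l + 1 - (j + 1)), (y + (r : A)) := by
      rw [show j + l + 1 - (j + 1) = l by omega]
      refine Finset.prod_congr rfl fun i _ => ?_
      push_cast
      ring
    rw [e1, e2]
    push_cast
    ring

/-- The maps `f` with `f i ≤ i` (they encode the permutations of `Fin (n + 1)`; the fixed points of
`f` correspond to the cycles). -/
def FF (n : ℕ) : Finset (Fin (n + 1) → Fin (n + 1)) := Fintype.piFinset fun i => Finset.Iic i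

/-- The fixed points of `f`. -/
def rts {n : ℕ} (f : Fin (n + 1) → Fin (n + 1)) : Finset (Fin (n + 1)) :=
  Finset.univ.filter fun i => f i = i

/-- The sign of an invariant set. -/
def GG {n : ℕ} (S : Finset (Fin (n + 1))) (f : Fin (n + 1) → Fin (n + 1)) : ℤ :=
  if ∀ i, (f i ∈ S ↔ i ∈ S) then (-1) ^ ((rts f).filter (· ∈ S)).card else 0

theorem rts_card_pos {n : ℕ} (f : Fin (n + 1) → Fin (n + 1)) (hf : f ∈ FF n) :
    0 < (rts f).card := by
  rw [Finset.card_pos]
  refine ⟨0, ?_⟩
  unfold rts
  rw [Finset.mem_filter]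
  refine ⟨Finset.mem_univ _, ?_⟩
  have := Fintype.mem_piFinset.mp hf 0
  rw [Finset.mem_Iic] at this
  exact le_antisymm this (Fin.zero_le _)

theorem prod_weights {A : Type*} [CommRing A] {n : ℕ} (y : A) (S : Finset (Fin (n + 1)))
    (f : Fin (n + 1) → Fin (n + 1)) :
    ∏ i, (if f i = i then (if i ∈ S then -y else y) else (if (f i ∈ S ↔ i ∈ S) then 1 else 0)) =
      (GG S f : A) * y ^ (rts f).card := by
  unfold GG
  by_cases h : ∀ i, (f i ∈ S ↔ i ∈ S)
  · rw [if_pos h, Finset.prod_ite]
    have e1 : ∏ x ∈ Finset.univ.filter (fun i => ¬ f i = i), (if (f x ∈ S ↔ x ∈ S) then (1 : A) else 0) = 1 :=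
      Finset.prod_eq_one fun x _ => if_pos (h x)
    rw [e1, mul_one]
    have e2 : ∀ x ∈ Finset.univ.filter (fun i => f i = i), (if x ∈ S then -y else y) =
        (if x ∈ S then (-1 : A) else 1) * y := by
      intro x _
      split_ifs <;> ring
    rw [Finset.prod_congr rfl e2, Finset.prod_mul_distrib, Finset.prod_const, Finset.prod_ite,
      Finset.prod_const, Finset.prod_const_one, mul_one]
    unfold rts
    push_cast
    rfl
  · rw [if_neg h]
    push Not at h
    obtain ⟨i, hi⟩ := h
    have hne : f i ≠ i := by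
      intro he
      rw [he] at hi
      tauto
    have hn : ¬ (f i ∈ S ↔ i ∈ S) := by tauto
    rw [Finset.prod_eq_zero (Finset.mem_univ i)]
    · simp
    · rw [if_neg hne, if_neg hn]

theorem sum_weights {A : Type*} [CommRing A] {n : ℕ} (y : A) (S : Finset (Fin (n + 1))) :
    ∑ f ∈ FF n, (GG S f : A) * y ^ (rts f).card =
      (-1) ^ S.card * (y * ∏ i ∈ range n, (y - S.card + (i + 1))) := by
  have hS : S.card ≤ n + 1 := by simpa using Finset.card_le_univ S
  simp_rw [← prod_weights]
  unfold FF
  rw [← Finset.prod_univ_sum (fun i => Finset.Iic i)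
    (fun i j => if j = i then (if i ∈ S then -y else y) else (if (j ∈ S ↔ i ∈ S) then 1 else 0))]
  have e1 : ∀ i : Fin (n + 1), (∑ j ∈ Finset.Iic i,
      (if j = i then (if i ∈ S then -y else y) else (if (j ∈ S ↔ i ∈ S) then (1 : A) else 0))) =
      if i ∈ S then -y + ((S.filter (· < i)).card : A) else y + ((Sᶜ.filter (· < i)).card : A) := by
    intro i
    rw [← Finset.insert_erase (Finset.mem_Iic.mpr (le_refl i)),
      Finset.sum_insert (Finset.notMem_erase _ _), if_pos rfl]
    have : ∀ j ∈ (Finset.Iic i).erase i,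
        (if j = i then (if i ∈ S then -y else y) else (if (j ∈ S ↔ i ∈ S) then (1 : A) else 0)) =
        if (j ∈ S ↔ i ∈ S) then (1 : A) else 0 := by
      intro j hj
      rw [if_neg (Finset.ne_of_mem_erase hj)]
    rw [Finset.sum_congr rfl this, Finset.sum_boole]
    by_cases hi : i ∈ S
    · rw [if_pos hi, if_pos hi]
      congr 3
      ext j
      simp only [Finset.mem_filter, Finset.mem_erase, Finset.mem_Iic, hi, iff_true]
      constructor
      · rintro ⟨⟨h1, h2⟩, h3⟩
        exact ⟨h3, lt_of_le_of_ne h2 h1⟩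
      · rintro ⟨h1, h2⟩
        exact ⟨⟨h2.ne, h2.le⟩, h1⟩
    · rw [if_neg hi, if_neg hi]
      congr 3
      ext j
      simp only [Finset.mem_filter, Finset.mem_erase, Finset.mem_Iic, hi, iff_false,
        Finset.mem_compl]
      constructor
      · rintro ⟨⟨h1, h2⟩, h3⟩
        exact ⟨h3, lt_of_le_of_ne h2 h1⟩
      · rintro ⟨h1, h2⟩
        exact ⟨⟨h2.ne, h2.le⟩, h1⟩
  rw [Finset.prod_congr rfl fun i _ => e1 i, Finset.prod_ite]
  have e2 : Finset.univ.filter (fun x : Fin (n + 1) => x ∈ S) = S := by ext; simp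
  have e3 : Finset.univ.filter (fun x : Fin (n + 1) => ¬ x ∈ S) = Sᶜ := by ext; simp
  rw [e2, e3, prod_rank (fun r => -y + (r : A)) S, prod_rank (fun r => y + (r : A)) Sᶜ,
    Finset.card_compl, Fintype.card_fin, ← prod_split y n S.card hS]
  have e4 : ∀ l : ℕ, ∏ r ∈ range l, (-y + (r : A)) = (-1) ^ l * ∏ r ∈ range l, (y - (r : A)) := by
    intro l
    induction l with
    | zero => simp
    | succ l ih =>
      rw [Finset.prod_range_succ, Finset.prod_range_succ, ih, pow_succ]
      ring
  rw [e4]
  ring

/-- The identity behind the cycle formula. -/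
theorem sum_weights' {n : ℕ} (y : ℤ) (S : Finset (Fin (n + 1))) :
    ∑ f ∈ FF n, GG S f * y ^ ((rts f).card - 1) =
      (-1) ^ S.card * ∏ i ∈ range n, (y - S.card + (i + 1)) := by
  have key : (∑ f ∈ FF n, Polynomial.C (GG S f) * (Polynomial.X : Polynomial ℤ) ^ ((rts f).card - 1)) =
      (-1) ^ S.card * ∏ i ∈ range n, ((Polynomial.X : Polynomial ℤ) - (S.card : Polynomial ℤ) + (i + 1)) := by
    have h := sum_weights (Polynomial.X : Polynomial ℤ) S
    apply mul_left_cancel₀ (Polynomial.X_ne_zero (R := ℤ))
    rw [Finset.mul_sum]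
    rw [show Polynomial.X * ((-1) ^ S.card * ∏ i ∈ range n,
        ((Polynomial.X : Polynomial ℤ) - (S.card : Polynomial ℤ) + (i + 1))) =
        (-1) ^ S.card * (Polynomial.X * ∏ i ∈ range n,
        ((Polynomial.X : Polynomial ℤ) - (S.card : Polynomial ℤ) + (i + 1))) by ring, ← h]
    refine Finset.sum_congr rfl fun f hf => ?_
    have := rts_card_pos f hf
    obtain ⟨r, hr⟩ : ∃ r, (rts f).card = r + 1 := ⟨(rts f).card - 1, by omega⟩
    rw [hr]
    simp only [Nat.add_sub_cancel, pow_succ]
    have : ((GG S f : ℤ) : Polynomial ℤ) = Polynomial.C (GG S f) := by simp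
    rw [this]
    ring
  have := congrArg (Polynomial.eval y) key
  simp only [Polynomial.eval_finsetSum, Polynomial.eval_mul, Polynomial.eval_C, Polynomial.eval_pow,
    Polynomial.eval_X, Polynomial.eval_prod, Polynomial.eval_neg, Polynomial.eval_one,
    Polynomial.eval_add, Polynomial.eval_sub, Polynomial.eval_natCast] at this
  exact this

end Pool.Agent.Work.MP_0df73a_co
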