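import Pool.Agent.Work.MP_0df73a_co.Cycle

/-!
The number of lattice points of a dilated slice of a box is a polynomial with nonnegative
coefficients, and these coefficients are unimodal in the position of the slice.
-/

set_option autoImplicit false

namespace Pool.Agent.Work.MP_0df73a_co

open Finset

/-- The leading coefficient (up to a factorial) of the counting polynomial. -/
def Phi {ι : Type*} (R : Finset ι) (c : ι → ℕ) (m k : ℕ) : ℤ :=
  ∑ T ∈ R.powerset with (∑ r ∈ T, c r) ≤ k, (-1 : ℤ) ^ T.card * ((k : ℤ) - ∑ r ∈ T, (c r : ℤ)) ^ m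

/-- The counting polynomial (times a factorial). -/
noncomputable def PP {ι : Type*} (R : Finset ι) (c : ι → ℕ) (m k : ℕ) : Polynomial ℤ :=
  ∑ T ∈ R.powerset with (∑ r ∈ T, c r) ≤ k, Polynomial.C ((-1 : ℤ) ^ T.card) *
    ∏ i ∈ range m, (Polynomial.C ((k : ℤ) - ∑ r ∈ T, (c r : ℤ)) * Polynomial.X +
      Polynomial.C (-(T.card : ℤ) + (i + 1)))

theorem PP_natDegree {ι : Type*} (R : Finset ι) (c : ι → ℕ) (m k : ℕ) : (PP R c m k).natDegree ≤ m := by
  unfold PP
  refine Polynomial.natDegree_sum_le_of_forall_le _ _ fun T _ => ?_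
  refine (Polynomial.natDegree_C_mul_le _ _).trans ?_
  refine (Polynomial.natDegree_prod_le _ _).trans ?_
  refine (Finset.sum_le_card_nsmul (range m) _ 1 fun i _ => Polynomial.natDegree_linear_le).trans ?_
  simp

theorem lin_coeff (u v : ℤ) : (Polynomial.C u * Polynomial.X + Polynomial.C v).coeff 1 = u := by
  rw [Polynomial.coeff_add, Polynomial.coeff_C_mul, Polynomial.coeff_X_one, Polynomial.coeff_C,
    if_neg one_ne_zero, mul_one, add_zero]

theorem PP_coeff {ι : Type*} (R : Finset ι) (c : ι → ℕ) (m k : ℕ) :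
    (PP R c m k).coeff m = Phi R c m k := by
  unfold PP Phi
  rw [Polynomial.finsetSum_coeff]
  refine Finset.sum_congr rfl fun T _ => ?_
  rw [Polynomial.coeff_C_mul]
  congr 1
  have := Polynomial.coeff_prod_of_natDegree_le (range m)
    (fun i => Polynomial.C ((k : ℤ) - ∑ r ∈ T, (c r : ℤ)) * Polynomial.X +
      Polynomial.C (-(T.card : ℤ) + ((i : ℤ) + 1))) 1 (fun i _ => Polynomial.natDegree_linear_le)
  rw [Finset.card_range, mul_one] at this
  rw [this, Finset.prod_congr rfl fun i _ => lin_coeff _ _]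
  simp

theorem PP_eval {ι : Type*} (R : Finset ι) (c : ι → ℕ) (m N k : ℕ) (hR : R.card = m + 1)
    (hN : 1 ≤ N) (hk : k < ∑ r ∈ R, c r) :
    (PP R c m k).eval (N : ℤ) = (m.factorial : ℤ) * dd R (fun r => N * c r) (N * k) := by
  rw [dd_scaled R c m N k hR hN hk]
  unfold PP
  rw [Polynomial.eval_finsetSum]
  refine Finset.sum_congr rfl fun T _ => ?_
  rw [Polynomial.eval_mul, Polynomial.eval_C, Polynomial.eval_prod]
  congr 1
  refine Finset.prod_congr rfl fun i _ => ?_
  simp only [Polynomial.eval_add, Polynomial.eval_mul, Polynomial.eval_C, Polynomial.eval_X]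
  ring

theorem coeff_nonneg_of_eval (p : Polynomial ℤ) (m : ℕ) (hd : p.natDegree ≤ m)
    (h : ∀ N : ℕ, 1 ≤ N → 0 ≤ p.eval (N : ℤ)) : 0 ≤ p.coeff m := by
  by_contra hneg
  push Not at hneg
  have hdeg : p.natDegree = m := by
    refine le_antisymm hd ?_
    by_contra hlt
    push Not at hlt
    rw [Polynomial.coeff_eq_zero_of_natDegree_lt hlt] at hneg
    exact lt_irrefl _ hneg
  rcases Nat.eq_zero_or_pos m with hm | hm
  · subst hm
    have hp : p = Polynomial.C (p.coeff 0) := Polynomial.eq_C_of_natDegree_le_zero hd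
    have := h 1 le_rfl
    rw [hp, Polynomial.eval_C] at this
    omega
  · set q : Polynomial ℝ := p.map (Int.castRingHom ℝ) with hq
    have hinj : Function.Injective (Int.castRingHom ℝ) := Int.cast_injective
    have hqd : q.natDegree = m := by
      rw [hq, Polynomial.natDegree_map_eq_of_injective hinj, hdeg]
    have hq0 : 0 < q.degree := by
      rw [← Polynomial.natDegree_pos_iff_degree_pos, hqd]
      exact hm
    have hql : q.leadingCoeff ≤ 0 := by
      rw [Polynomial.leadingCoeff, hqd, hq, Polynomial.coeff_map]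
      have : ((p.coeff m : ℤ) : ℝ) ≤ 0 := by exact_mod_cast hneg.le
      simpa using this
    have ht := (Polynomial.tendsto_atBot_of_leadingCoeff_nonpos q hq0 hql).comp
      (tendsto_natCast_atTop_atTop (R := ℝ))
    have hev := (ht.eventually (Filter.eventually_lt_atBot 0)).and (Filter.eventually_ge_atTop 1)
    obtain ⟨N, h1, h2⟩ := hev.exists
    have h3 := h N h2
    have h4 : Polynomial.eval (N : ℝ) q = ((p.eval (N : ℤ) : ℤ) : ℝ) := by
      rw [hq, Polynomial.eval_map]
      have := Polynomial.eval₂_at_intCast (p := p) (Int.castRingHom ℝ) (N : ℤ)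
      simpa using this
    simp only [Function.comp] at h1
    rw [h4] at h1
    have : p.eval (N : ℤ) < 0 := by exact_mod_cast h1
    omega

theorem Phi_nonneg {ι : Type*} (R : Finset ι) (c : ι → ℕ) (m k : ℕ) (hR : R.card = m + 1)
    (hk : k < ∑ r ∈ R, c r) : 0 ≤ Phi R c m k := by
  rw [← PP_coeff]
  refine coeff_nonneg_of_eval _ _ (PP_natDegree R c m k) fun N hN => ?_
  rw [PP_eval R c m N k hR hN hk]
  exact mul_nonneg (by positivity) (dd_nonneg _ _ _)

theorem Phi_mono {ι : Type*} (R : Finset ι) (c : ι → ℕ) (m k' k : ℕ) (hR : R.card = m + 1)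
    (hk : k < ∑ r ∈ R, c r) (h1 : k' ≤ k) (h2 : k' + k ≤ ∑ r ∈ R, c r) :
    Phi R c m k' ≤ Phi R c m k := by
  rw [← sub_nonneg, ← PP_coeff, ← PP_coeff, ← Polynomial.coeff_sub]
  refine coeff_nonneg_of_eval _ _ ?_ fun N hN => ?_
  · exact (Polynomial.natDegree_sub_le _ _).trans (max_le (PP_natDegree R c m k) (PP_natDegree R c m k'))
  · rw [Polynomial.eval_sub, PP_eval R c m N k hR hN hk, PP_eval R c m N k' hR hN (by omega),
      ← mul_sub]
    refine mul_nonneg (by positivity) (sub_nonneg.mpr (dd_mono _ _ _ _ ?_ ?_))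
    · exact Nat.mul_le_mul_left N h1
    · rw [← Finset.mul_sum, ← mul_add]
      exact Nat.mul_le_mul_left N h2

/-! ### Blocks -/

/-- The root of an element. -/
def rt {n : ℕ} (f : Fin (n + 1) → Fin (n + 1)) (i : Fin (n + 1)) : Fin (n + 1) := f^[n + 1] i

theorem iterate_fixed {n : ℕ} (f : Fin (n + 1) → Fin (n + 1)) (hf : f ∈ FF n) (m : ℕ) :
    ∀ i : Fin (n + 1), (i : ℕ) ≤ m → f (f^[m] i) = f^[m] i := by
  have hle : ∀ i, f i ≤ i := fun i => by
    have := Fintype.mem_piFinset.mp hf i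
    rwa [Finset.mem_Iic] at this
  induction m with
  | zero =>
    intro i hi
    have h0 : i = 0 := Fin.ext (by simpa using hi)
    subst h0
    exact le_antisymm (hle 0) (Fin.zero_le _)
  | succ m ih =>
    intro i hi
    rw [Function.iterate_succ_apply]
    by_cases h : f i = i
    · rw [h]
      have : ∀ l : ℕ, f^[l] i = i := fun l => Function.iterate_fixed h l
      rw [this, h]
    · refine ih (f i) ?_
      have : (f i : ℕ) < i := lt_of_le_of_ne (hle i) (fun e => h (Fin.ext e))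
      omega

theorem rt_mem {n : ℕ} (f : Fin (n + 1) → Fin (n + 1)) (hf : f ∈ FF n) (i : Fin (n + 1)) :
    rt f i ∈ rts f := by
  unfold rts rt
  rw [Finset.mem_filter]
  exact ⟨Finset.mem_univ _, iterate_fixed f hf (n + 1) i (by omega)⟩

theorem rt_of_mem {n : ℕ} (f : Fin (n + 1) → Fin (n + 1)) (i : Fin (n + 1)) (h : i ∈ rts f) :
    rt f i = i := by
  unfold rts at h
  rw [Finset.mem_filter] at h
  exact Function.iterate_fixed h.2 _

theorem rt_map {n : ℕ} (f : Fin (n + 1) → Fin (n + 1)) (hf : f ∈ FF n) (i : Fin (n + 1)) :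
    rt f (f i) = rt f i := by
  have h := iterate_fixed f hf (n + 1) i (by omega)
  unfold rt
  rw [← Function.iterate_succ_apply, Function.iterate_succ_apply', h]

/-- The mass of the block of a root. -/
def cf {n : ℕ} (f : Fin (n + 1) → Fin (n + 1)) (a : Fin (n + 1) → ℕ) (r : Fin (n + 1)) : ℕ :=
  ∑ i with rt f i = r, a i

theorem cf_sum {n : ℕ} (f : Fin (n + 1) → Fin (n + 1)) (a : Fin (n + 1) → ℕ)
    (T : Finset (Fin (n + 1))) : ∑ r ∈ T, cf f a r = ∑ i with rt f i ∈ T, a i := by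
  unfold cf
  rw [← Finset.sum_fiberwise_of_maps_to (s := Finset.univ.filter fun i => rt f i ∈ T) (t := T)
    (g := rt f) (fun i hi => (Finset.mem_filter.mp hi).2)]
  refine Finset.sum_congr rfl fun r hr => ?_
  rw [Finset.filter_filter]
  refine Finset.sum_congr ?_ fun _ _ => rfl
  ext i
  simp only [Finset.mem_filter, Finset.mem_univ, true_and]
  constructor
  · intro h
    exact ⟨h ▸ hr, h⟩
  · exact fun h => h.2

theorem cf_total {n : ℕ} (f : Fin (n + 1) → Fin (n + 1)) (hf : f ∈ FF n) (a : Fin (n + 1) → ℕ) :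
    ∑ r ∈ rts f, cf f a r = ∑ i, a i := by
  rw [cf_sum]
  refine Finset.sum_congr ?_ fun _ _ => rfl
  ext i
  simp only [Finset.mem_filter, Finset.mem_univ, true_and, iff_true]
  exact rt_mem f hf i

theorem phi_regroup {n : ℕ} (f : Fin (n + 1) → Fin (n + 1)) (hf : f ∈ FF n)
    (a : Fin (n + 1) → ℕ) (m k : ℕ) :
    ∑ S ∈ (Finset.univ : Finset (Fin (n + 1))).powerset with (∑ r ∈ S, a r) ≤ k,
      GG S f * ((k : ℤ) - ∑ r ∈ S, (a r : ℤ)) ^ m = Phi (rts f) (cf f a) m k := by
  unfold Phi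
  have hinv : ∀ S : Finset (Fin (n + 1)), (∀ i, (f i ∈ S ↔ i ∈ S)) → ∀ i, (rt f i ∈ S ↔ i ∈ S) := by
    intro S hS i
    unfold rt
    have : ∀ l : ℕ, (f^[l] i ∈ S ↔ i ∈ S) := by
      intro l
      induction l with
      | zero => simp
      | succ l ih => rw [Function.iterate_succ_apply', hS, ih]
    exact this _
  have step : ∑ S ∈ (Finset.univ : Finset (Fin (n + 1))).powerset with (∑ r ∈ S, a r) ≤ k,
      GG S f * ((k : ℤ) - ∑ r ∈ S, (a r : ℤ)) ^ m =
      ∑ S ∈ (Finset.univ : Finset (Fin (n + 1))).powerset with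
        ((∑ r ∈ S, a r) ≤ k ∧ ∀ i, (f i ∈ S ↔ i ∈ S)),
      (-1 : ℤ) ^ ((rts f).filter (· ∈ S)).card * ((k : ℤ) - ∑ r ∈ S, (a r : ℤ)) ^ m := by
    rw [← Finset.filter_filter, Finset.sum_filter (p := fun S => ∀ i, (f i ∈ S ↔ i ∈ S))]
    refine Finset.sum_congr rfl fun S _ => ?_
    unfold GG
    split_ifs
    · rfl
    · rw [zero_mul]
  rw [step]
  refine Finset.sum_nbij' (fun S => (rts f).filter (· ∈ S))
    (fun T => Finset.univ.filter fun i => rt f i ∈ T) ?_ ?_ ?_ ?_ ?_
  · intro S hS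
    rw [Finset.mem_filter] at hS ⊢
    refine ⟨Finset.mem_powerset.mpr (Finset.filter_subset _ _), ?_⟩
    rw [cf_sum]
    have : (Finset.univ.filter fun i => rt f i ∈ (rts f).filter (· ∈ S)) = S := by
      ext i
      simp only [Finset.mem_filter, Finset.mem_univ, true_and]
      rw [hinv S hS.2.2 i]
      exact ⟨fun h => h.2, fun h => ⟨rt_mem f hf i, h⟩⟩
    rw [this]
    exact hS.2.1
  · intro T hT
    rw [Finset.mem_filter] at hT ⊢
    refine ⟨Finset.mem_powerset.mpr (Finset.subset_univ _), ?_, ?_⟩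
    · rw [← cf_sum]
      exact hT.2
    · intro i
      simp only [Finset.mem_filter, Finset.mem_univ, true_and]
      rw [rt_map f hf]
  · intro S hS
    rw [Finset.mem_filter] at hS
    ext i
    simp only [Finset.mem_filter, Finset.mem_univ, true_and]
    rw [hinv S hS.2.2 i]
    exact ⟨fun h => h.2, fun h => ⟨rt_mem f hf i, h⟩⟩
  · intro T hT
    rw [Finset.mem_filter, Finset.mem_powerset] at hT
    ext i
    simp only [Finset.mem_filter, Finset.mem_univ, true_and]
    constructor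
    · rintro ⟨h1, h2⟩
      rwa [rt_of_mem f i h1] at h2
    · intro h
      refine ⟨hT.1 h, ?_⟩
      rwa [rt_of_mem f i (hT.1 h)]
  · intro S hS
    rw [Finset.mem_filter] at hS
    congr 2
    have h1 : ∑ r ∈ (rts f).filter (· ∈ S), (cf f a r : ℤ) =
        ((∑ r ∈ (rts f).filter (· ∈ S), cf f a r : ℕ) : ℤ) := by push_cast; rfl
    rw [h1, cf_sum]
    have : (Finset.univ.filter fun i => rt f i ∈ (rts f).filter (· ∈ S)) = S := by
      ext i
      simp only [Finset.mem_filter, Finset.mem_univ, true_and]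
      rw [hinv S hS.2.2 i]
      exact ⟨fun h => h.2, fun h => ⟨rt_mem f hf i, h⟩⟩
    rw [this]
    push_cast
    rfl

/-- The cycle formula for the number of lattice points of a dilated slice of a box. -/
theorem dd_cycle {n : ℕ} (a : Fin (n + 1) → ℕ) (N k : ℕ) (hN : 1 ≤ N) (hk : k < ∑ i, a i) :
    (n.factorial : ℤ) * dd Finset.univ (fun r => N * a r) (N * k) =
      ∑ f ∈ FF n, Phi (rts f) (cf f a) ((rts f).card - 1) k * (N : ℤ) ^ ((rts f).card - 1) := by
  rw [dd_scaled Finset.univ a n N k (by simp) hN hk]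
  have h1 : ∀ T : Finset (Fin (n + 1)), (-1 : ℤ) ^ T.card *
        ∏ i ∈ range n, ((N : ℤ) * ((k : ℤ) - ∑ r ∈ T, (a r : ℤ)) - T.card + (i + 1)) =
      ∑ f ∈ FF n, GG T f * ((N : ℤ) * ((k : ℤ) - ∑ r ∈ T, (a r : ℤ))) ^ ((rts f).card - 1) := by
    intro T
    exact (sum_weights' _ _).symm
  rw [Finset.sum_congr rfl fun T _ => h1 T, Finset.sum_comm]
  refine Finset.sum_congr rfl fun f hf => ?_
  rw [← phi_regroup f hf, Finset.sum_mul]
  refine Finset.sum_congr rfl fun T _ => ?_
  rw [mul_pow]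
  ring

/-- The counting polynomial of a slice of a box. -/
noncomputable def BP {n : ℕ} (a : Fin (n + 1) → ℕ) (k : ℕ) : Polynomial ℚ :=
  Polynomial.C ((n.factorial : ℚ)⁻¹) * ∑ f ∈ FF n,
    Polynomial.C ((Phi (rts f) (cf f a) ((rts f).card - 1) k : ℤ) : ℚ) *
      Polynomial.X ^ ((rts f).card - 1)

theorem BP_eval {n : ℕ} (a : Fin (n + 1) → ℕ) (N k : ℕ) (hN : 1 ≤ N) (hk : k < ∑ i, a i) :
    (BP a k).eval (N : ℚ) = (dd Finset.univ (fun r => N * a r) (N * k) : ℤ) := by
  have h := dd_cycle a N k hN hk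
  have hf : (n.factorial : ℚ) ≠ 0 := by exact_mod_cast n.factorial_ne_zero
  unfold BP
  rw [Polynomial.eval_mul, Polynomial.eval_C, Polynomial.eval_finsetSum, inv_mul_eq_iff_eq_mul₀ hf]
  have h2 := congrArg (fun z : ℤ => (z : ℚ)) h
  push_cast at h2
  rw [h2]
  refine Finset.sum_congr rfl fun f _ => ?_
  simp

theorem BP_coeff_nonneg {n : ℕ} (a : Fin (n + 1) → ℕ) (k : ℕ) (hk : k < ∑ i, a i) (j : ℕ) :
    0 ≤ (BP a k).coeff j := by
  unfold BP
  rw [Polynomial.coeff_C_mul, Polynomial.finsetSum_coeff]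
  refine mul_nonneg (by positivity) (Finset.sum_nonneg fun f hf => ?_)
  rw [Polynomial.coeff_C_mul, Polynomial.coeff_X_pow]
  have := rts_card_pos f hf
  have h1 := Phi_nonneg (rts f) (cf f a) ((rts f).card - 1) k (by omega) (by rwa [cf_total f hf])
  refine mul_nonneg (by exact_mod_cast h1) ?_
  split_ifs <;> norm_num

theorem BP_coeff_mono {n : ℕ} (a : Fin (n + 1) → ℕ) (k' k : ℕ) (hk : k < ∑ i, a i) (h1 : k' ≤ k)
    (h2 : k' + k ≤ ∑ i, a i) (j : ℕ) : (BP a k').coeff j ≤ (BP a k).coeff j := by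
  unfold BP
  rw [Polynomial.coeff_C_mul, Polynomial.coeff_C_mul, Polynomial.finsetSum_coeff,
    Polynomial.finsetSum_coeff]
  refine mul_le_mul_of_nonneg_left (Finset.sum_le_sum fun f hf => ?_) (by positivity)
  rw [Polynomial.coeff_C_mul, Polynomial.coeff_C_mul, Polynomial.coeff_X_pow]
  have := rts_card_pos f hf
  have h1 := Phi_mono (rts f) (cf f a) ((rts f).card - 1) k' k (by omega) (by rwa [cf_total f hf])
    h1 (by rwa [cf_total f hf])
  refine mul_le_mul_of_nonneg_right (by exact_mod_cast h1) ?_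
  split_ifs <;> norm_num

end Pool.Agent.Work.MP_0df73a_co
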