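import Pool.Agent.Work.MP_0df73a_co.Ballot

/-!
Two-row semistandard tableaux with given content, and ballot vectors.
-/

set_option autoImplicit false

namespace Pool.Agent.Work.MP_0df73a_co

open Finset

theorem count_lt (L : ℕ) (g : ℕ → ℕ) (v : ℕ) :
    ∑ u ∈ range v, ((range L).filter fun j => g j = u).card = ((range L).filter fun j => g j < v).card := by
  rw [Finset.card_eq_sum_card_fiberwise (s := (range L).filter fun j => g j < v) (t := range v) (f := g)
    (fun j hj => by
      have := (Finset.mem_filter.mp (Finset.mem_coe.mp hj)).2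
      exact Finset.mem_coe.mpr (Finset.mem_range.mpr this))]
  refine Finset.sum_congr rfl fun u hu => ?_
  rw [Finset.mem_range] at hu
  congr 1
  ext j
  simp only [Finset.mem_filter]
  constructor
  · rintro ⟨h1, h2⟩
    exact ⟨⟨h1, by omega⟩, h2⟩
  · rintro ⟨⟨h1, -⟩, h2⟩
    exact ⟨h1, h2⟩

theorem lt_iff_lt_count (L : ℕ) (g : ℕ → ℕ) (hg : ∀ j1 j2, j1 < j2 → j2 < L → g j1 ≤ g j2) (v j : ℕ)
    (hj : j < L) : g j < v ↔ j < ((range L).filter fun j => g j < v).card := by
  constructor
  · intro h
    have hsub : range (j + 1) ⊆ (range L).filter fun j => g j < v := by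
      intro i hi
      rw [Finset.mem_range] at hi
      rw [Finset.mem_filter, Finset.mem_range]
      refine ⟨by omega, ?_⟩
      rcases Nat.lt_or_ge i j with h1 | h1
      · exact lt_of_le_of_lt (hg i j h1 hj) h
      · obtain rfl : i = j := by omega
        exact h
    have := Finset.card_le_card hsub
    rw [Finset.card_range] at this
    omega
  · intro h
    by_contra hn
    have hsub : ((range L).filter fun j => g j < v) ⊆ range j := by
      intro i hi
      rw [Finset.mem_filter, Finset.mem_range] at hi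
      rw [Finset.mem_range]
      by_contra hc
      rcases Nat.lt_or_ge j i with h1 | h1
      · have := hg j i h1 hi.1
        omega
      · obtain rfl : i = j := by omega
        exact hn hi.2
    have := Finset.card_le_card hsub
    rw [Finset.card_range] at this
    omega

/-- The weakly increasing row with partial counts `M`. -/
noncomputable def rowf (M : ℕ → ℕ) (j : ℕ) : ℕ := sInf {v | j < M (v + 1)}

theorem rowf_lt (M : ℕ → ℕ) (hM : Monotone M) (h0 : M 0 = 0) (n j : ℕ) (hj : j < M n) (v : ℕ) :
    rowf M j < v ↔ j < M v := by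
  have hne : {v | j < M (v + 1)}.Nonempty := by
    rcases n with _ | n
    · omega
    · exact ⟨n, hj⟩
  constructor
  · intro h
    have := Nat.sInf_mem hne
    exact lt_of_lt_of_le this (hM h)
  · intro h
    rcases v with _ | v
    · omega
    · exact Nat.lt_succ_of_le (Nat.sInf_le h)

theorem rowf_count (M : ℕ → ℕ) (hM : Monotone M) (h0 : M 0 = 0) (n : ℕ) (hn : ∀ v, M v ≤ M n) (v : ℕ) :
    ((range (M n)).filter fun j => rowf M j = v).card = M (v + 1) - M v := by
  have : ((range (M n)).filter fun j => rowf M j = v) = Finset.Ico (M v) (M (v + 1)) := by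
    ext j
    rw [Finset.mem_filter, Finset.mem_range, Finset.mem_Ico]
    constructor
    · rintro ⟨h1, h2⟩
      have e1 := rowf_lt M hM h0 n j h1 v
      have e2 := rowf_lt M hM h0 n j h1 (v + 1)
      constructor
      · by_contra hc
        have := e1.mpr (by omega)
        omega
      · exact e2.mp (by omega)
    · rintro ⟨h1, h2⟩
      have hjn : j < M n := lt_of_lt_of_le h2 (hn _)
      have e1 := rowf_lt M hM h0 n j hjn v
      have e2 := rowf_lt M hM h0 n j hjn (v + 1)
      refine ⟨hjn, ?_⟩
      have h3 := e2.mpr h2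
      have h4 : ¬ rowf M j < v := fun h => by
        have := e1.mp h
        omega
      omega
  rw [this, Nat.card_Ico]

section

variable {D : YoungDiagram} {p q : ℕ}

/-- The diagram `D` has two rows, of lengths `p` and `q`. -/
def TwoRows (D : YoungDiagram) (p q : ℕ) : Prop :=
  ∀ i j, (i, j) ∈ D ↔ (i = 0 ∧ j < p) ∨ (i = 1 ∧ j < q)

theorem card_fiber (hD : TwoRows D p q) (T : SemistandardYoungTableau D) (v : ℕ) :
    Nat.card {c : ℕ × ℕ // c ∈ D ∧ T c.1 c.2 = v} =
      ((range p).filter fun j => T 0 j = v).card + ((range q).filter fun j => T 1 j = v).card := by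
  have hset : {c : ℕ × ℕ | c ∈ D ∧ T c.1 c.2 = v} =
      ((((range p).filter fun j => T 0 j = v).image fun j => ((0 : ℕ), j)) ∪
        (((range q).filter fun j => T 1 j = v).image fun j => ((1 : ℕ), j)) : Finset (ℕ × ℕ)) := by
    ext ⟨i, j⟩
    simp only [Set.mem_ofPred_eq, Finset.coe_union, Finset.coe_image, Set.mem_union, Set.mem_image,
      Finset.mem_coe, Finset.mem_filter, Finset.mem_range, Prod.mk.injEq]
    rw [hD i j]
    constructor
    · rintro ⟨⟨rfl, h⟩ | ⟨rfl, h⟩, h2⟩
      · exact Or.inl ⟨j, ⟨h, h2⟩, rfl, rfl⟩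
      · exact Or.inr ⟨j, ⟨h, h2⟩, rfl, rfl⟩
    · rintro (⟨j', ⟨h, h2⟩, rfl, rfl⟩ | ⟨j', ⟨h, h2⟩, rfl, rfl⟩)
      · exact ⟨Or.inl ⟨rfl, h⟩, h2⟩
      · exact ⟨Or.inr ⟨rfl, h⟩, h2⟩
  have h1 : Nat.card {c : ℕ × ℕ // c ∈ D ∧ T c.1 c.2 = v} =
      Set.ncard {c : ℕ × ℕ | c ∈ D ∧ T c.1 c.2 = v} := rfl
  rw [h1, hset, Set.ncard_coe_finset, Finset.card_union_of_disjoint,
    Finset.card_image_of_injective _ (fun a b h => (Prod.mk.inj h).2),
    Finset.card_image_of_injective _ (fun a b h => (Prod.mk.inj h).2)]
  rw [Finset.disjoint_left]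
  intro x hx hy
  rw [Finset.mem_image] at hx hy
  obtain ⟨a, -, rfl⟩ := hx
  obtain ⟨c, -, h⟩ := hy
  have := (Prod.mk.inj h).1
  omega

/-- The content of the second row. -/
def row2 (q : ℕ) (T : SemistandardYoungTableau D) : ℕ → ℕ := fun v =>
  ((range q).filter fun j => T 1 j = v).card

theorem row_mono (hD : TwoRows D p q) (T : SemistandardYoungTableau D) :
    (∀ j1 j2, j1 < j2 → j2 < p → T 0 j1 ≤ T 0 j2) ∧ (∀ j1 j2, j1 < j2 → j2 < q → T 1 j1 ≤ T 1 j2) :=
  ⟨fun _ _ h h2 => T.row_weak h ((hD _ _).mpr (Or.inl ⟨rfl, h2⟩)),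
    fun _ _ h h2 => T.row_weak h ((hD _ _).mpr (Or.inr ⟨rfl, h2⟩))⟩

/-- The set of tableaux with content `b`. -/
def Tab (D : YoungDiagram) (b : ℕ → ℕ) : Set (SemistandardYoungTableau D) :=
  {T | ∀ v : ℕ, Nat.card {c : ℕ × ℕ // c ∈ D ∧ T c.1 c.2 = v} = b v}

theorem row2_bal (hD : TwoRows D p q) (hqp : q ≤ p) (b : ℕ → ℕ) (n : ℕ) (hb : ∀ v, n ≤ v → b v = 0)
    (T : SemistandardYoungTableau D) (hT : T ∈ Tab D b) : Bal b n q (row2 q T) := by
  have hle : ∀ v, row2 q T v ≤ b v := by
    intro v
    have := hT v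
    rw [card_fiber hD] at this
    unfold row2
    omega
  have hlt : ∀ j, j < q → T 1 j < n := by
    intro j hj
    by_contra hn
    have h1 := hle (T 1 j)
    rw [hb _ (by omega)] at h1
    have h2 : 0 < row2 q T (T 1 j) := by
      unfold row2
      rw [Finset.card_pos]
      exact ⟨j, Finset.mem_filter.mpr ⟨Finset.mem_range.mpr hj, rfl⟩⟩
    omega
  refine ⟨fun v hv => ?_, fun v _ => hle v, ?_, fun v hv => ?_⟩
  · have := hle v
    rw [hb v hv] at this
    omega
  · unfold row2
    rw [count_lt q (fun j => T 1 j) n, Finset.filter_true_of_mem, Finset.card_range]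
    intro j hj
    exact hlt j (Finset.mem_range.mp hj)
  · have e1 : ∑ u ∈ range v, b u = ((range p).filter fun j => T 0 j < v).card +
        ∑ u ∈ range v, row2 q T u := by
      rw [← count_lt p (fun j => T 0 j) v, ← Finset.sum_add_distrib]
      refine Finset.sum_congr rfl fun u _ => ?_
      have := hT u
      rw [card_fiber hD] at this
      unfold row2
      exact this.symm
    have e2 : ∑ u ∈ range (v + 1), row2 q T u = ((range q).filter fun j => T 1 j < v + 1).card :=
      count_lt q (fun j => T 1 j) (v + 1)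
    rw [e1, e2]
    refine Nat.add_le_add_right (Finset.card_le_card ?_) _
    intro j hj
    rw [Finset.mem_filter, Finset.mem_range] at hj ⊢
    refine ⟨by omega, ?_⟩
    have := T.col_strict (i1 := 0) (i2 := 1) (j := j) (by norm_num) ((hD 1 j).mpr (Or.inr ⟨rfl, hj.1⟩))
    omega

theorem row2_inj (hD : TwoRows D p q) (b : ℕ → ℕ) (T T' : SemistandardYoungTableau D)
    (hT : T ∈ Tab D b) (hT' : T' ∈ Tab D b) (h : row2 q T = row2 q T') : T = T' := by
  have h1 : ∀ v, ((range q).filter fun j => T 1 j < v).card =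
      ((range q).filter fun j => T' 1 j < v).card := by
    intro v
    rw [← count_lt q (fun j => T 1 j) v, ← count_lt q (fun j => T' 1 j) v]
    exact Finset.sum_congr rfl fun u _ => congrFun h u
  have h0 : ∀ v, ((range p).filter fun j => T 0 j < v).card =
      ((range p).filter fun j => T' 0 j < v).card := by
    intro v
    rw [← count_lt p (fun j => T 0 j) v, ← count_lt p (fun j => T' 0 j) v]
    refine Finset.sum_congr rfl fun u _ => ?_
    have e1 := hT u
    have e2 := hT' u
    rw [card_fiber hD] at e1 e2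
    have := congrFun h u
    unfold row2 at this
    omega
  have hm := row_mono hD T
  have hm' := row_mono hD T'
  ext i j
  by_cases hij : (i, j) ∈ D
  · rcases (hD i j).mp hij with ⟨rfl, hj⟩ | ⟨rfl, hj⟩
    · refine eq_of_forall_lt_iff ?_ |>.symm
      intro v
      have a1 := lt_iff_lt_count p (fun j => T 0 j) hm.1 (v + 1) j hj
      have a2 := lt_iff_lt_count p (fun j => T' 0 j) hm'.1 (v + 1) j hj
      rw [h0] at a1
      constructor
      · intro hh
        by_contra hc
        have := a1.mp (by omega)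
        have := a2.mpr this
        omega
      · intro hh
        by_contra hc
        have := a2.mp (by omega)
        have := a1.mpr this
        omega
    · refine eq_of_forall_lt_iff ?_ |>.symm
      intro v
      have a1 := lt_iff_lt_count q (fun j => T 1 j) hm.2 (v + 1) j hj
      have a2 := lt_iff_lt_count q (fun j => T' 1 j) hm'.2 (v + 1) j hj
      rw [h1] at a1
      constructor
      · intro hh
        by_contra hc
        have := a1.mp (by omega)
        have := a2.mpr this
        omega
      · intro hh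
        by_contra hc
        have := a2.mp (by omega)
        have := a1.mpr this
        omega
  · rw [T.zeros hij, T'.zeros hij]

theorem row2_surj (hD : TwoRows D p q) (b : ℕ → ℕ) (n : ℕ) (hb : ∀ v, n ≤ v → b v = 0)
    (hsum : ∑ v ∈ range n, b v = p + q) (x : ℕ → ℕ) (hx : Bal b n q x) :
    ∃ T ∈ Tab D b, row2 q T = x := by
  obtain ⟨hx1, hx2, hx3, hx4⟩ := hx
  have hxb : ∀ v, x v ≤ b v := by
    intro v
    rcases Nat.lt_or_ge v n with h | h
    · exact hx2 v h
    · rw [hx1 v h]
      exact Nat.zero_le _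
  set M1 : ℕ → ℕ := fun v => ∑ u ∈ range v, x u with hM1
  set M0 : ℕ → ℕ := fun v => ∑ u ∈ range v, (b u - x u) with hM0
  have hmono : ∀ y : ℕ → ℕ, Monotone fun v => ∑ u ∈ range v, y u := by
    intro y v w hvw
    exact Finset.sum_le_sum_of_subset (Finset.range_mono hvw)
  have hstab : ∀ y : ℕ → ℕ, (∀ v, n ≤ v → y v = 0) → ∀ v, ∑ u ∈ range v, y u ≤ ∑ u ∈ range n, y u := by
    intro y hy v
    rcases Nat.lt_or_ge n v with h | h
    · rw [← Finset.sum_subset (Finset.range_mono h.le)]
      intro u _ hu
      rw [Finset.mem_range, not_lt] at hu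
      exact hy u hu
    · exact hmono y h
  have hadd : ∀ v, M0 v + M1 v = ∑ u ∈ range v, b u := by
    intro v
    rw [hM0, hM1]
    simp only
    rw [← Finset.sum_add_distrib]
    refine Finset.sum_congr rfl fun u _ => ?_
    have := hxb u
    omega
  have hM1n : M1 n = q := hx3
  have hM0n : M0 n = p := by
    have := hadd n
    omega
  have hs1 : ∀ v, M1 v ≤ M1 n := hstab x hx1
  have hs0 : ∀ v, M0 v ≤ M0 n := hstab _ fun v hv => by
    rw [hb v hv]
    exact Nat.zero_sub _
  have z1 : M1 0 = 0 := by simp [hM1]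
  have z0 : M0 0 = 0 := by simp [hM0]
  have m1 : Monotone M1 := hmono x
  have m0 : Monotone M0 := hmono _
  have r1 : ∀ j, j < q → ∀ v, rowf M1 j < v ↔ j < M1 v := fun j hj v =>
    rowf_lt M1 m1 z1 n j (by omega) v
  have r0 : ∀ j, j < p → ∀ v, rowf M0 j < v ↔ j < M0 v := fun j hj v =>
    rowf_lt M0 m0 z0 n j (by omega) v
  have hqp : ∀ j, j < q → j < p ∧ rowf M0 j < rowf M1 j := by
    intro j hj
    have hv : rowf M1 j < n := (r1 j hj n).mpr (by omega)
    have h1 : j < M1 (rowf M1 j + 1) := (r1 j hj _).mp (by omega)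
    have h2 := hx4 (rowf M1 j) hv
    have h3 := hadd (rowf M1 j)
    have h4 : M1 (rowf M1 j + 1) ≤ M0 (rowf M1 j) := by
      have : M1 (rowf M1 j + 1) + M1 (rowf M1 j) ≤ ∑ u ∈ range (rowf M1 j), b u := h2
      omega
    have h5 : j < M0 (rowf M1 j) := by omega
    have hjp : j < p := by
      have := hs0 (rowf M1 j)
      omega
    exact ⟨hjp, (r0 j hjp _).mpr h5⟩
  let T : SemistandardYoungTableau D :=
    { entry := fun i j => if i = 0 then (if j < p then rowf M0 j else 0) else
        if i = 1 then (if j < q then rowf M1 j else 0) else 0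
      row_weak' := by
        intro i j1 j2 hj hcell
        rcases (hD i j2).mp hcell with ⟨rfl, hj2⟩ | ⟨rfl, hj2⟩
        · rw [if_pos rfl, if_pos rfl, if_pos hj2, if_pos (by omega)]
          by_contra hc
          have h1 := (r0 j2 hj2 (rowf M0 j2 + 1)).mp (by omega)
          have h2 := (r0 j1 (by omega) (rowf M0 j2 + 1)).mpr (by omega)
          omega
        · have hj1 : j1 < q := by omega
          simp only [one_ne_zero, if_false, if_true, hj2, hj1]
          by_contra hc
          have h1 := (r1 j2 hj2 (rowf M1 j2 + 1)).mp (by omega)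
          have h2 := (r1 j1 (by omega) (rowf M1 j2 + 1)).mpr (by omega)
          omega
      col_strict' := by
        intro i1 i2 j hi hcell
        rcases (hD i2 j).mp hcell with ⟨rfl, hj2⟩ | ⟨rfl, hj2⟩
        · omega
        · obtain rfl : i1 = 0 := by omega
          have := hqp j hj2
          rw [if_pos rfl, if_pos this.1, if_neg (by norm_num), if_pos rfl, if_pos hj2]
          exact this.2
      zeros' := by
        intro i j hij
        rw [hD i j] at hij
        push Not at hij
        by_cases h0 : i = 0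
        · rw [if_pos h0, if_neg (by have := hij.1 h0; omega)]
        · rw [if_neg h0]
          by_cases h1 : i = 1
          · rw [if_pos h1, if_neg (by have := hij.2 h1; omega)]
          · rw [if_neg h1] }
  have hT0 : ∀ j, j < p → T 0 j = rowf M0 j := by
    intro j hj
    change (if (0 : ℕ) = 0 then (if j < p then rowf M0 j else 0) else
        if (0 : ℕ) = 1 then (if j < q then rowf M1 j else 0) else 0) = _
    rw [if_pos rfl, if_pos hj]
  have hT1 : ∀ j, j < q → T 1 j = rowf M1 j := by
    intro j hj
    change (if (1 : ℕ) = 0 then (if j < p then rowf M0 j else 0) else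
        if (1 : ℕ) = 1 then (if j < q then rowf M1 j else 0) else 0) = _
    rw [if_neg (by norm_num), if_pos rfl, if_pos hj]
  have c1 : ∀ v, ((range q).filter fun j => T 1 j = v).card = x v := by
    intro v
    have e : ((range q).filter fun j => T 1 j = v) = ((range q).filter fun j => rowf M1 j = v) :=
      Finset.filter_congr fun j hj => by rw [hT1 j (Finset.mem_range.mp hj)]
    rw [e, ← hM1n, rowf_count M1 m1 z1 n hs1 v, hM1]
    simp only
    rw [Finset.sum_range_succ]
    omega
  have c0 : ∀ v, ((range p).filter fun j => T 0 j = v).card = b v - x v := by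
    intro v
    have e : ((range p).filter fun j => T 0 j = v) = ((range p).filter fun j => rowf M0 j = v) :=
      Finset.filter_congr fun j hj => by rw [hT0 j (Finset.mem_range.mp hj)]
    rw [e, ← hM0n, rowf_count M0 m0 z0 n hs0 v, hM0]
    simp only
    rw [Finset.sum_range_succ]
    omega
  refine ⟨T, ?_, ?_⟩
  · intro v
    rw [card_fiber hD, c0, c1]
    have := hxb v
    omega
  · funext v
    exact c1 v

/-- Two-row tableaux are counted by the difference of two slice numbers. -/
theorem card_Tab (hD : TwoRows D p q) (hqp : q ≤ p) (b : ℕ → ℕ) (n : ℕ) (hb : ∀ v, n ≤ v → b v = 0)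
    (hsum : ∑ v ∈ range n, b v = p + q) : (Nat.card (Tab D b) : ℤ) = kost b n q := by
  rw [← card_BF b n q (by omega)]
  congr 1
  have h : Nat.card (Tab D b) = Nat.card {x : ℕ → ℕ // x ∈ BF b n q} := by
    refine Nat.card_congr (Equiv.ofBijective
      (fun T => ⟨row2 q T.1, (mem_BF b n q _).mpr (row2_bal hD hqp b n hb T.1 T.2)⟩) ⟨?_, ?_⟩)
    · intro T T' h
      have := congrArg Subtype.val h
      exact Subtype.ext (row2_inj hD b T.1 T'.1 T.2 T'.2 this)
    · rintro ⟨x, hx⟩
      obtain ⟨T, hT, hTx⟩ := row2_surj hD b n hb hsum x ((mem_BF b n q x).mp hx)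
      exact ⟨⟨T, hT⟩, Subtype.ext hTx⟩
  rw [h, Nat.card_eq_fintype_card, Fintype.card_coe]

/-- The content of a tableau sums to the number of cells. -/
theorem content_sum (hD : TwoRows D p q) (b : ℕ → ℕ) (n : ℕ) (hb : ∀ v, n ≤ v → b v = 0)
    (T : SemistandardYoungTableau D) (hT : T ∈ Tab D b) : ∑ v ∈ range n, b v = p + q := by
  have h1 : ∀ v, ((range p).filter fun j => T 0 j = v).card +
      ((range q).filter fun j => T 1 j = v).card = b v := by
    intro v
    rw [← card_fiber hD]
    exact hT v
  have e : ∑ v ∈ range n, b v = ((range p).filter fun j => T 0 j < n).card +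
      ((range q).filter fun j => T 1 j < n).card := by
    rw [← count_lt p (fun j => T 0 j) n, ← count_lt q (fun j => T 1 j) n, ← Finset.sum_add_distrib]
    exact Finset.sum_congr rfl fun u _ => (h1 u).symm
  rw [e, Finset.filter_true_of_mem, Finset.filter_true_of_mem, Finset.card_range, Finset.card_range]
  · intro j hj
    by_contra hc
    have h2 := h1 (T 1 j)
    rw [hb _ (by omega)] at h2
    have : 0 < ((range q).filter fun j' => T 1 j' = T 1 j).card :=
      Finset.card_pos.mpr ⟨j, Finset.mem_filter.mpr ⟨hj, rfl⟩⟩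
    omega
  · intro j hj
    by_contra hc
    have h2 := h1 (T 0 j)
    rw [hb _ (by omega)] at h2
    have : 0 < ((range p).filter fun j' => T 0 j' = T 0 j).card :=
      Finset.card_pos.mpr ⟨j, Finset.mem_filter.mpr ⟨hj, rfl⟩⟩
    omega

end

end Pool.Agent.Work.MP_0df73a_co
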